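import Mathlib
import Pool.Agent.X213.Block
import Pool.Agent.H248R5.Gen
import Pool.Agent.H248R6.Dim

set_option autoImplicit false

/-!
# Blocks, clusters and doubling: nonspecial systems with smooth general members

For every vector of multiplicities `m` and general points of the complex projective plane the linear
system `|d H - ∑ m i E i|` is nonspecial in every degree `d` in which `E = Decided false` (emptiness)
or `I = Decided true` (independence) holds for the multiset `M` of the multiplicities; and if its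
number of conditions is at most `(d + 2).choose 2`, then for ALL multiplicities `u ≤ m` the system
`|d H - ∑ u i E i|` is nonspecial and the general member of `|(d + 1) H - ∑ u i E i|` is a smooth curve
on the blow-up. `E` and `I` are the least relations with:
* blocks (`EmptyRange`, `IndepRange`): `M` is (for `E`: contains) the sum of `r < K ^ 2`
  multisets whose sums and sizes satisfy an inequality;
* clusters: a member `b` is replaced by the four numbers `⌊(2 b + j) / 4⌋`, `j = -1, 0, 1, 2`;
* doubling: `I` for `M + a {b}` and `E` for `M + a {b + 1}` in degree `d` decide the degree `d`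
  for `M + a {⌊b / 2⌋, ⌊b / 2⌋, ⌊(b + 1) / 2⌋, ⌊(b + 1) / 2⌋}`;
* monotonicity.
-/

namespace Pool.Agent.Results.MP_0421d9_ag.BlockCalculusSmooth

open Pool.Agent.H248R5 Pool.Agent.H248R6 Pool.Agent.X213.Block

/-- In degree `d` the system with the multiplicities `v i` at the points `P i` is nonspecial; and if
there are at most `(d + 2).choose 2` conditions, then for all `u ≤ v` the system with the
multiplicities `u i` is nonspecial in degree `d`, and its general member in degree `d + 1` is smooth. -/
def GoodFrom {n : ℕ} (v : Fin n → ℕ) (P : Fin n → Fin 2 → ℂ) (d : ℕ) : Prop :=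
  Module.finrank ℂ ↥(forms v P d) = (d + 2).choose 2 - ∑ i, (v i + 1).choose 2 ∧
  (∑ i, (v i + 1).choose 2 ≤ (d + 2).choose 2 → ∀ u : Fin n → ℕ, (∀ i, u i ≤ v i) →
    Module.finrank ℂ ↥(forms u P d) + ∑ i, (u i + 1).choose 2 = (d + 2).choose 2 ∧
    GeneralMember (forms u P (d + 1)) (SmoothMember u P))

theorem surj_of {n : ℕ} {w u : Fin n → ℕ} {P : Fin n → Fin 2 → ℂ} {d : ℕ}
    (h : H932R3.ExpDim ℂ w P d) (hd : ∑ i, (w i + 1).choose 2 ≤ (d + 2).choose 2)
    (hu : ∀ i, u i ≤ w i) : Function.Surjective (ev u P d) := by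
  refine surj_mono hu (surj_of_ind ?_)
  have h1 : Module.finrank ℂ ↥(forms w P d) = (d + 2).choose 2 - ∑ i, (w i + 1).choose 2 := h
  omega

theorem goodFrom {n : ℕ} {v : Fin n → ℕ} {P : Fin n → Fin 2 → ℂ} (hP : Function.Injective P)
    {d : ℕ} (h : H932R3.ExpDim ℂ v P d) : GoodFrom v P d :=
  ⟨h, fun hd _ hu => ⟨finrank_of_surj (surj_of h hd hu),
    general_smooth hP (finrank_of_surj (surj_of h hd hu)).le⟩⟩

theorem result {n : ℕ} (m : Fin n → ℕ) :
    ∃ F : MvPolynomial (Fin n × Fin 2) ℂ, F ≠ 0 ∧
      ∀ P : Fin n → Fin 2 → ℂ,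
        MvPolynomial.eval (fun ij : Fin n × Fin 2 => P ij.1 ij.2) F ≠ 0 →
        ∀ d : ℕ, DecidedClass d m → GoodFrom m P d := by
  obtain ⟨F, hF, hF'⟩ := Pool.Agent.TH745.MN.expDim_dec m
  refine ⟨F.map (algebraMap ℚ ℂ) * disc ℂ n, mul_ne_zero (H932R3.map_ne_zero_of hF)
    (disc_ne ℂ n), fun P hP d ⟨s, hd⟩ => ?_⟩
  rw [map_mul, MvPolynomial.eval_map] at hP
  exact goodFrom (inj_of_disc (right_ne_zero_of_mul hP))
    (hF' P (left_ne_zero_of_mul hP) d ⟨s, hd.dec⟩)

end Pool.Agent.Results.MP_0421d9_ag.BlockCalculusSmooth
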