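import Mathlib
import Pool.Agent.Y210.EF.Vec
import Pool.Agent.Y939.WN.Large
import Pool.Agent.Y939.NC.Reg
import Pool.Agent.H248R5.Gen
import Pool.Agent.H248R6.Dim

set_option autoImplicit false

/-!
# Smooth general members on ONE explicit surface

Let `X` be the blow-up of the complex projective plane at the `n` points with the affine coordinates
`exp (2 ^ (k / 2 n))`, `k < 2 n`. Every tame class `(d; w)` is nonspecial on this explicit surface `X`,
and if its number of conditions is at most `(d + 2).choose 2`, then for ALL multiplicities `u ≤ w` the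
system `|d H - ∑ u i E i|` is nonspecial and the general member of `|(d + 1) H - ∑ u i E i|` is a
smooth curve on `X`.

Tame are the classes which are large (`Pool.Agent.Y939.WN.Large`) or have almost regular
multiplicities (`Pool.Agent.Y939.NC.AlmostRegular`, every `d`), and, if `n ≥ 4`, those carried by
finitely many reflections to a standard class of these two kinds.
-/

namespace Pool.Agent.Results.MP_0421d9_ag.ExplicitSurfaceSmooth

open MvPolynomial Pool.Agent.Y939.WN Pool.Agent.Y939.NC Pool.Agent.H248R5 Pool.Agent.H248R6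

/-- The `n` points with the affine coordinates `exp (2 ^ (k / (2 n)))`, `k = 0, 1, …, 2 n - 1`. -/
noncomputable def points (n : ℕ) : Fin n → Fin 2 → ℂ := fun i j =>
  ((Real.exp ((2 : ℝ) ^ (((2 * (i : ℕ) + (j : ℕ) : ℕ) : ℝ) / (2 * n))) : ℝ) : ℂ)

/-- The class `(d; w)` is standard: `d ≥ w i + w j + w k`. -/
def Standard {n : ℕ} (d : ℕ) (w : Fin n → ℕ) : Prop :=
  ∀ i j k : Fin n, i ≠ j → i ≠ k → j ≠ k → w i + w j + w k ≤ d

/-- The reflection of the class `a = (d; w)`, `d H - ∑ w l E l`, in the class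
`H - E (i 0) - E (i 1) - E (i 2)`: with `δ = d - w (i 0) - w (i 1) - w (i 2)`, the numbers
`d`, `w (i 0)`, `w (i 1)`, `w (i 2)` are increased by `δ`. -/
def reflect {n : ℕ} (i : Fin 3 → Fin n) (a : ℤ × (Fin n → ℤ)) : ℤ × (Fin n → ℤ) :=
  (a.1 + (a.1 - a.2 (i 0) - a.2 (i 1) - a.2 (i 2)),
    fun l => a.2 l + if l = i 0 ∨ l = i 1 ∨ l = i 2 then a.1 - a.2 (i 0) - a.2 (i 1) - a.2 (i 2)
      else 0)

/-- Finitely many reflections carry `(d; w)` to `(d'; w')`. -/
def Carries {n : ℕ} (d : ℕ) (w : Fin n → ℕ) (d' : ℕ) (w' : Fin n → ℕ) : Prop :=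
  Relation.ReflTransGen
    (fun a b : ℤ × (Fin n → ℤ) => ∃ i : Fin 3 → Fin n, Function.Injective i ∧ b = reflect i a)
    ((d : ℤ), fun l => (w l : ℤ)) ((d' : ℤ), fun l => (w' l : ℤ))

/-- Classes which are large or almost regular, or carried by finitely many reflections to a
standard class which is large or almost regular. -/
def Tame (N0 : ℕ) {n : ℕ} (d : ℕ) (w : Fin n → ℕ) : Prop :=
  Large d w ∨ AlmostRegular N0 w ∨ (4 ≤ n ∧ ∃ (d' : ℕ) (w' : Fin n → ℕ), Carries d w d' w' ∧
    Standard d' w' ∧ (Large d' w' ∨ AlmostRegular N0 w'))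

/-- In degree `d` the system with the multiplicities `v i` at the points `P i` is nonspecial; and if
there are at most `(d + 2).choose 2` conditions, then for all `u ≤ v` the system with the
multiplicities `u i` is nonspecial in degree `d`, and its general member in degree `d + 1` is smooth. -/
def GoodFrom {n : ℕ} (v : Fin n → ℕ) (P : Fin n → Fin 2 → ℂ) (d : ℕ) : Prop :=
  Module.finrank ℂ ↥(forms v P d) = (d + 2).choose 2 - ∑ i, (v i + 1).choose 2 ∧
  (∑ i, (v i + 1).choose 2 ≤ (d + 2).choose 2 → ∀ u : Fin n → ℕ, (∀ i, u i ≤ v i) →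
    Module.finrank ℂ ↥(forms u P d) + ∑ i, (u i + 1).choose 2 = (d + 2).choose 2 ∧
    GeneralMember (forms u P (d + 1)) (SmoothMember u P))

theorem surj_of {n : ℕ} {w u : Fin n → ℕ} {P : Fin n → Fin 2 → ℂ} {d : ℕ}
    (h : Pool.Agent.Y210.EF.ED ℂ w P d) (hd : ∑ i, (w i + 1).choose 2 ≤ (d + 2).choose 2)
    (hu : ∀ i, u i ≤ w i) : Function.Surjective (ev u P d) := by
  refine surj_mono hu (surj_of_ind ?_)
  have h1 : Module.finrank ℂ ↥(forms w P d) = (d + 2).choose 2 - ∑ i, (w i + 1).choose 2 := h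
  omega

theorem goodFrom {n : ℕ} {v : Fin n → ℕ} {P : Fin n → Fin 2 → ℂ} (hP : Function.Injective P)
    {d : ℕ} (h : Pool.Agent.Y210.EF.ED ℂ v P d) : GoodFrom v P d :=
  ⟨h, fun hd _ hu => ⟨finrank_of_surj (surj_of h hd hu),
    general_smooth hP (finrank_of_surj (surj_of h hd hu)).le⟩⟩

theorem points_injective {n : ℕ} (hn : 1 ≤ n) : Function.Injective (points n) := by
  intro i i' h
  have h1 := congrFun h 0
  unfold points at h1
  rw [Complex.ofReal_inj] at h1
  have h2 := Real.exp_injective h1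
  have h3 : (((2 * (i : ℕ) + ((0 : Fin 2) : ℕ) : ℕ) : ℝ) / (2 * n)) =
      (((2 * (i' : ℕ) + ((0 : Fin 2) : ℕ) : ℕ) : ℝ) / (2 * n)) := by
    have h4 := congrArg (Real.logb 2) h2
    rwa [Real.logb_rpow (by norm_num) (by norm_num), Real.logb_rpow (by norm_num) (by norm_num)]
      at h4
  have hnR : (0 : ℝ) < 2 * n := by
    have : (1 : ℝ) ≤ n := by exact_mod_cast hn
    linarith
  rw [div_left_inj' hnR.ne'] at h3
  have h4 : 2 * (i : ℕ) + ((0 : Fin 2) : ℕ) = 2 * (i' : ℕ) + ((0 : Fin 2) : ℕ) := by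
    exact_mod_cast h3
  exact Fin.ext (by omega)

/-- **Main result.** -/
theorem result : ∃ N0 : ℕ, ∀ n : ℕ, 1 ≤ n → ∀ (d : ℕ) (w : Fin n → ℕ), Tame N0 d w →
    GoodFrom w (points n) d := by
  obtain ⟨N0, hN0⟩ := reg_exp
  refine ⟨N0, fun n hn => ?_⟩
  obtain ⟨K, _, _, P, hP⟩ := Pool.Agent.TH442.NF.exists_generic n
  have key : ∀ (d : ℕ) (w : Fin n → ℕ), Pool.Agent.Y210.EF.ED K w P d →
      GoodFrom w (points n) d := by
    intro d w hED
    obtain ⟨Φ, h1, _, _, h4⟩ := Pool.Agent.Y210.EF.one_ed hED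
    refine goodFrom (points_injective hn) (h4 ℂ (points n) ?_)
    intro h0
    apply Pool.Agent.Y210.EF.exp_points hn h1
    rw [← h0]
    unfold Pool.Agent.Y210.EF.ev points
    rw [coe_eval₂Hom]
    congr 1
    funext ij
    show _ = ((Real.exp _ : ℝ) : ℂ)
    rw [Complex.ofReal_exp]
    rfl
  refine fun d w hw => key d w ?_
  rcases hw with h | h | ⟨hn4, d', w', hcar, hs, hG | hG⟩
  · exact large_exp h hP
  · exact almost_exp hN0 h hP d
  · exact orbit_large hn4 hP hcar hs hG
  · exact Pool.Agent.TH442.NF.up_enef hP hcar (Pool.Agent.TH442.NF.enef_of_std hn4 P hs)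
      (almost_exp hN0 hG hP d')

end Pool.Agent.Results.MP_0421d9_ag.ExplicitSurfaceSmooth
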