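import Mathlib
import Pool.Agent.H248R5.Gen
import Pool.Agent.H248R6.Dim
import Pool.Agent.W609.Fin2
import Pool.Agent.W609.T.Five

set_option autoImplicit false

/-!
# One, three or five arbitrary multiplicities: nonspecial, with smooth general members

General points of the complex projective plane.

* One multiplicity `M` is arbitrary and the others are at most `m`: all degrees `d > M + 2 m`.
* The multiplicities `v 0 ≥ v 1 ≥ ⋯` are arbitrary: all degrees `d ≥ v 0 + v 1 + v 2`, with a condition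
  which involves only the fourth multiplicity `v 3`.
* The multiplicities `v 0 ≥ v 1 ≥ ⋯` are at most `m` from the sixth on: all degrees
  `d ≥ v 0 + v 1 + v 2`.

In such a degree `d`, if the number of the coefficients left by the one (the three) large points, or the
number of the conditions at the other points, is large, the linear system is nonspecial, and if the
number of all conditions is at most `(d + 2).choose 2` then for ALL smaller multiplicities `u` the
system `|d H - ∑ u i E i|` is nonspecial and the general member of `|(d + 1) H - ∑ u i E i|` is a smooth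
curve on the blow-up.
-/

namespace Pool.Agent.Results.MP_0421d9_ag.FewArbitrarySmooth

open Finset Pool.Agent.H248R5 Pool.Agent.H248R6

/-- In degree `d` the system with the multiplicities `v i` at the points `P i` is nonspecial; and if
there are at most `(d + 2).choose 2` conditions, then for all `u ≤ v` the system with the
multiplicities `u i` is nonspecial in degree `d`, and its general member in degree `d + 1` is smooth. -/
def GoodFrom {n : ℕ} (v : Fin n → ℕ) (P : Fin n → Fin 2 → ℂ) (d : ℕ) : Prop :=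
  Module.finrank ℂ ↥(forms v P d) = (d + 2).choose 2 - ∑ i, (v i + 1).choose 2 ∧
  (∑ i, (v i + 1).choose 2 ≤ (d + 2).choose 2 → ∀ u : Fin n → ℕ, (∀ i, u i ≤ v i) →
    Module.finrank ℂ ↥(forms u P d) + ∑ i, (u i + 1).choose 2 = (d + 2).choose 2 ∧
    GeneralMember (forms u P (d + 1)) (SmoothMember u P))

/-- The number of the coefficients left by the first three points, or the number of the conditions at
the other points, is at least `2 ^ 16 B ^ 4`, respectively `2 ^ 17 B ^ 4`. -/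
def Big {r : ℕ} (B : ℕ) (v : Fin (r + 4) → ℕ) (d : ℕ) : Prop :=
  131072 * B ^ 4 + (v 0 * (v 0 + 1) + v 1 * (v 1 + 1) + v 2 * (v 2 + 1)) ≤ (d + 1) * (d + 2) ∨
    131072 * B ^ 4 ≤ ∑ i : Fin (r + 4), if 3 ≤ (i : ℕ) then (v i + 1).choose 2 else 0

theorem surj_of {n : ℕ} {w u : Fin n → ℕ} {P : Fin n → Fin 2 → ℂ} {d : ℕ}
    (h : H932R3.ExpDim ℂ w P d) (hd : ∑ i, (w i + 1).choose 2 ≤ (d + 2).choose 2)
    (hu : ∀ i, u i ≤ w i) : Function.Surjective (ev u P d) := by
  refine surj_mono hu (surj_of_ind ?_)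
  have h1 : Module.finrank ℂ ↥(forms w P d) = (d + 2).choose 2 - ∑ i, (w i + 1).choose 2 := h
  omega

theorem goodFrom {n : ℕ} {v : Fin n → ℕ} {P : Fin n → Fin 2 → ℂ} (hP : Function.Injective P)
    {d : ℕ} (h : H932R3.ExpDim ℂ v P d) : GoodFrom v P d :=
  ⟨h, fun hd _ hu => ⟨finrank_of_surj (surj_of h hd hu),
    general_smooth hP (finrank_of_surj (surj_of h hd hu)).le⟩⟩

theorem result :
    -- one arbitrary multiplicity
    (∀ (n M m : ℕ) (w : Fin n → ℕ), (∀ i, w i ≤ m) →
      ∃ F : MvPolynomial (Fin (n + 1) × Fin 2) ℂ, F ≠ 0 ∧ ∀ P : Fin (n + 1) → Fin 2 → ℂ,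
        MvPolynomial.eval (fun ij : Fin (n + 1) × Fin 2 => P ij.1 ij.2) F ≠ 0 →
        ∀ d : ℕ, M + 2 * m < d →
          (64 * (m + 1) ^ 4 + M * (M + 1) ≤ (d + 1) * (d + 2) ∨
            64 * (m + 1) ^ 4 ≤ ∑ i, (w i + 1).choose 2) →
          GoodFrom (Fin.cons M w : Fin (n + 1) → ℕ) P d) ∧
    ∀ (r : ℕ) (v : Fin (r + 4) → ℕ), Antitone v →
      -- three arbitrary multiplicities
      (0 < v 3 → ∃ F : MvPolynomial (Fin (r + 4) × Fin 2) ℂ, F ≠ 0 ∧
        ∀ P : Fin (r + 4) → Fin 2 → ℂ,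
          MvPolynomial.eval (fun ij : Fin (r + 4) × Fin 2 => P ij.1 ij.2) F ≠ 0 →
          ∀ d : ℕ, v 0 + v 1 + v 2 ≤ d → Big (v 3 + 1) v d → GoodFrom v P d) ∧
      -- five arbitrary multiplicities
      ∀ m : ℕ, 0 < m → (∀ i : Fin (r + 4), 5 ≤ (i : ℕ) → v i ≤ m) →
        ∃ F : MvPolynomial (Fin (r + 4) × Fin 2) ℂ, F ≠ 0 ∧
          ∀ P : Fin (r + 4) → Fin 2 → ℂ,
            MvPolynomial.eval (fun ij : Fin (r + 4) × Fin 2 => P ij.1 ij.2) F ≠ 0 →
            ∀ d : ℕ, v 0 + v 1 + v 2 ≤ d → Big (4 * m ^ 2 + 8 * m + 5) v d → GoodFrom v P d := by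
  refine ⟨fun n M m w hw => ?_, fun r v hv => ⟨fun h0 => ?_, fun m hm h5 => ?_⟩⟩
  · obtain ⟨F, hF, hF'⟩ := W609.one_big2 ℂ (M := M) hw
    refine ⟨F.map (algebraMap ℚ ℂ) * disc ℂ (n + 1), mul_ne_zero (H932R3.map_ne_zero_of hF)
      (disc_ne ℂ (n + 1)), fun P hP d hd h1 => ?_⟩
    rw [map_mul, MvPolynomial.eval_map] at hP
    exact goodFrom (inj_of_disc (right_ne_zero_of_mul hP)) (hF' P (left_ne_zero_of_mul hP) d hd h1)
  · obtain ⟨F, hF, hF'⟩ := W609.T.big3' ℂ hv h0
    refine ⟨F.map (algebraMap ℚ ℂ) * disc ℂ (r + 4), mul_ne_zero (H932R3.map_ne_zero_of hF)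
      (disc_ne ℂ (r + 4)), fun P hP d hd h1 => ?_⟩
    rw [map_mul, MvPolynomial.eval_map] at hP
    exact goodFrom (inj_of_disc (right_ne_zero_of_mul hP)) (hF' P (left_ne_zero_of_mul hP) d hd h1)
  · obtain ⟨F, hF, hF'⟩ := W609.T.big5 ℂ hm hv h5
    refine ⟨F.map (algebraMap ℚ ℂ) * disc ℂ (r + 4), mul_ne_zero (H932R3.map_ne_zero_of hF)
      (disc_ne ℂ (r + 4)), fun P hP d hd h1 => ?_⟩
    rw [map_mul, MvPolynomial.eval_map] at hP
    exact goodFrom (inj_of_disc (right_ne_zero_of_mul hP)) (hF' P (left_ne_zero_of_mul hP) d hd h1)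

end Pool.Agent.Results.MP_0421d9_ag.FewArbitrarySmooth
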