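import Mathlib
import Pool.Agent.X214.NV.Dom
import Pool.Agent.H248R5.Gen
import Pool.Agent.H248R6.Dim

set_option autoImplicit false

/-!
# Near-uniform multiplicities: nonspecial in every degree, smooth above the first one

Let the vector `v` of multiplicities take only the values `m`, `m + 1`, `m ≥ 1` arbitrary, on a set
`S` of at least `36` of the `n` points, and values `≤ 1` at the other points.
For general points of the complex projective plane `|d H - ∑ v i E i|` is nonspecial for EVERY `d`,
and, if `∑ (v i + 1).choose 2 ≤ (d + 2).choose 2`, for all multiplicities `u i ≤ v i` the system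
`|d H - ∑ u i E i|` is nonspecial and the general member of `|(d + 1) H - ∑ u i E i|` is a smooth
curve on the blow-up. For `u = v` these are all the nonempty systems but the one of the smallest
degree.
-/

namespace Pool.Agent.Results.MP_0421d9_ag.NearUniformExplicitSmooth

open Pool.Agent Finset Pool.Agent.H248R5 Pool.Agent.H248R6 Pool.Agent.X214.NV

theorem surj_of {n : ℕ} {w u : Fin n → ℕ} {P : Fin n → Fin 2 → ℂ} {d : ℕ}
    (h : H932R3.ExpDim ℂ w P d) (hd : ∑ i, (w i + 1).choose 2 ≤ (d + 2).choose 2)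
    (hu : ∀ i, u i ≤ w i) : Function.Surjective (ev u P d) := by
  refine surj_mono hu (surj_of_ind ?_)
  have h1 : Module.finrank ℂ ↥(forms w P d) = (d + 2).choose 2 - ∑ i, (w i + 1).choose 2 := h
  omega

theorem result : ∀ (n d : ℕ) (v : Fin n → ℕ) (S : Finset (Fin n)), NearOn v S →
    (∀ i, i ∉ S → v i ≤ 1) →
    ∃ F : MvPolynomial (Fin n × Fin 2) ℂ, F ≠ 0 ∧
      ∀ P : Fin n → Fin 2 → ℂ,
        MvPolynomial.eval (fun ij : Fin n × Fin 2 => P ij.1 ij.2) F ≠ 0 →
          Module.finrank ℂ ↥(forms v P d) = (d + 2).choose 2 - ∑ i, (v i + 1).choose 2 ∧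
          (∑ i, (v i + 1).choose 2 ≤ (d + 2).choose 2 → ∀ u : Fin n → ℕ, (∀ i, u i ≤ v i) →
            Module.finrank ℂ ↥(forms u P d) = (d + 2).choose 2 - ∑ i, (u i + 1).choose 2 ∧
            GeneralMember (forms u P (d + 1)) (SmoothMember u P)) := by
  classical
  intro n d v S hS hS1
  obtain ⟨F, hF, hF'⟩ := dom_open (d := d) (dom_of hS hS1)
  refine ⟨F.map (algebraMap ℚ ℂ) * disc ℂ n, mul_ne_zero (H932R3.map_ne_zero_of hF)
    (disc_ne ℂ n), fun P hP => ?_⟩
  rw [map_mul, MvPolynomial.eval_map] at hP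
  have h3 := hF' (L := ℂ) P (left_ne_zero_of_mul hP)
  refine ⟨h3, fun hd u hu => ⟨?_, ?_⟩⟩
  · have h4 := finrank_of_surj (surj_of h3 hd hu)
    omega
  · exact general_smooth (inj_of_disc (right_ne_zero_of_mul hP))
      (finrank_of_surj (surj_of h3 hd hu)).le

end Pool.Agent.Results.MP_0421d9_ag.NearUniformExplicitSmooth
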